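import Pool.Agent.Helper96.GP.NDefs

set_option autoImplicit false

/-!
# The distribution on the classes of a regular subset of the grid (block UD)

The other blocks used here are hypotheses (`SclS`, `GoodS`, ...); each of them is the literal
statement of the block.
-/

open Finset
open scoped Classical

namespace GPG

noncomputable section

/-- statement of `scl` -/
def SclS : Prop := ∀ (κ η δ : ℝ), 0 < κ → κ < 1 → 0 < η → η < 1 / 10 → 0 < δ → δ < 1 →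
    ∃ δ3 > (0 : ℝ), ∀ B0 : ℕ, ∃ C4 > (0 : ℝ), ∃ n0 : ℕ, ∀ n ≥ n0, ∀ (L : LS) (lam : ℕ → ℝ),
      (L.N ≤ n ^ 2) → (L.ls.card ≤ n ^ 6) →
      (∀ v, 0 ≤ lam v ∧ lam v ≤ (n : ℝ) ^ (-1 + η / 100)) →
      (∀ v < L.N, ∀ i ∈ L.ls, v ∈ i → L.pre i → ∑ z ∈ i.filter (fun z => z < v), lam z ≤ κ) →
      (∀ v < L.N, (L.ls.filter (fun i => L.pre i ∧ v ∈ i)).card ≤ B0) →
      (∀ v < L.N, ∑ i ∈ L.ls.filter (fun i => v ∈ i ∧ ¬ L.pre i),
        (∑ z ∈ i.filter (fun z => z < v), lam z) ^ 3 ≤ δ3) →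
      (∀ v < L.N, ∑ q ∈ L.Pv v, lam q.1 * lam q.2 ≤ (1 - 3 * η) * Real.log n) →
      (∀ i ∈ L.ls, ∀ w < L.N, w ∉ i → ∑ y ∈ i, L.r lam w y ≤ (n : ℝ) ^ (η / 100)) →
      (∀ u < L.N, ∀ v < L.N, u ≠ v →
        ∑ y ∈ (range L.N).filter (fun y => y ≠ u ∧ y ≠ v ∧ ¬ L.Coll y u v),
          L.r lam u y * L.r lam v y ≤ (n : ℝ) ^ (η / 100)) →
      (∀ v < L.N, ∀ s < L.N, s ≠ v →
        ∑ q ∈ (L.Pv v).filter (fun q => L.Lng ⌊(n : ℝ) ^ (η / 2)⌋₊ v s q.1 ∨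
            L.Lng ⌊(n : ℝ) ^ (η / 2)⌋₊ v s q.2), lam q.1 * lam q.2 ≤
          (n : ℝ) ^ (-η / 20)) →
      ∃ W : Finset ℕ → ℝ, (∀ C, 0 ≤ W C) ∧
        (∀ C, W C ≠ 0 → C ⊆ range L.N ∧ (∀ v ∈ C, lam v ≠ 0) ∧ ∀ i ∈ L.ls,
          (L.pre i → (C ∩ i).card ≤ 1) ∧ (C ∩ i).card ≤ 2) ∧
        (∑ C ∈ (range L.N).powerset, W C = 1) ∧
        (∀ v < L.N, (1 - δ) * lam v ≤
          ∑ C ∈ (range L.N).powerset.filter (fun C => v ∈ C), W C) ∧
        (∀ u < L.N, ∀ v < L.N, u ≠ v →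
          ∑ C ∈ (range L.N).powerset.filter (fun C => u ∈ C ∧ v ∈ C), W C ≤
            C4 * lam u * lam v)

/-- statement of `good_noThree` -/
def GoodS : Prop := ∀ (n M : ℕ) (V : Finset ℕ), V ⊆ range (n ^ 2) → ∀ C : Finset ℕ,
    C ⊆ V → (∀ i ∈ (gridLS n V M).ls,
      ((gridLS n V M).pre i → (C ∩ i).card ≤ 1) ∧ (C ∩ i).card ≤ 2) → NoThree n C

/-- statement of `card_pre` -/
def CardPreS : Prop := ∀ (n M : ℕ) (V : Finset ℕ), V ⊆ range (n ^ 2) → ∀ v : ℕ,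
    ((gls n V M).filter (fun i => gpre n M i ∧ v ∈ i)).card ≤ (2 * M + 1) ^ 2

/-- statement of `card_gls` -/
def CardGlsS : Prop := ∀ (n M : ℕ) (V : Finset ℕ), V ⊆ range (n ^ 2) →
    (gls n V M).card ≤ 2 * n ^ 4

/-- statement of `rho_bounds` -/
def RhoS : Prop := ∀ n t : ℕ, t < n ^ 2 → 17 / 20 ≤ rho n t ∧ rho n t ≤ 1999 / 1000

/-- statement of `Pv_le` -/
def PvS : Prop := ∀ (n M : ℕ) (V : Finset ℕ), V ⊆ range (n ^ 2) → ∀ q : ℝ, 0 < q → ∀ v : ℕ,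
    v < n ^ 2 →
    ∑ p ∈ (gridLS n V M).Pv v, lamV n V q p.1 * lamV n V q p.2 ≤
      XX (Qup n M v) (fun p => rho n p.1 * rho n p.2) V / (q * n) ^ 2

/-- statement of `pre_le` -/
def PreS : Prop := ∀ (n M : ℕ) (V : Finset ℕ), V ⊆ range (n ^ 2) → ∀ q : ℝ, 0 < q → 0 < n →
    (∀ a < n ^ 2, ∀ b < n ^ 2, a ≠ b → ((V ∩ ghalf n a b).card : ℝ) ≤ q * (0.5001 * n)) →
    ∀ i : Finset ℕ, i ∈ gls n V M → gpre n M i → ∑ z ∈ i, lamV n V q z ≤ 0.9998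

/-- statement of `cube_le` -/
def CubeS : Prop := ∀ n M : ℕ, 1 ≤ M → ∀ V : Finset ℕ, V ⊆ range (n ^ 2) → ∀ q : ℝ,
    0 < q → 0 < n → ∀ Lg : ℝ, 0 ≤ Lg →
    (∀ a < n ^ 2, ∀ b < n ^ 2, a ≠ b →
      ((V ∩ gline n a b).card : ℝ) ≤ q * (2 * (gline n a b).card + Lg)) → ∀ v : ℕ,
    ∑ i ∈ (gls n V M).filter (fun i => v ∈ i ∧ ¬ gpre n M i),
      (∑ z ∈ i.filter (fun z => z < v), lamV n V q z) ^ 3 ≤ 40000 / M + 100 * Lg ^ 3 / n

/-- statement of `H6` -/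
def H6S : Prop := ∀ η : ℝ, 0 < η → ∃ n0 : ℕ, ∀ n ≥ n0, ∀ M : ℕ, ∀ V ⊆ range (n ^ 2),
    ∀ q : ℝ, 1 / Real.log n ≤ q → q ≤ 1 → ∀ i ∈ (gridLS n V M).ls,
    ∀ w < (gridLS n V M).N, w ∉ i →
      ∑ y ∈ i, (gridLS n V M).r (lamV n V q) w y ≤ (n : ℝ) ^ (η / 100)

/-- statement of `H5` -/
def H5S : Prop := ∀ η : ℝ, 0 < η → ∃ n0 : ℕ, ∀ n ≥ n0, ∀ M : ℕ, ∀ V ⊆ range (n ^ 2),
    ∀ q : ℝ, 1 / Real.log n ≤ q → q ≤ 1 → ∀ u < (gridLS n V M).N, ∀ v < (gridLS n V M).N, u ≠ v →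
      ∑ y ∈ (range (gridLS n V M).N).filter
          (fun y => y ≠ u ∧ y ≠ v ∧ ¬ (gridLS n V M).Coll y u v),
        (gridLS n V M).r (lamV n V q) u y * (gridLS n V M).r (lamV n V q) v y ≤
          (n : ℝ) ^ (η / 100)

/-- statement of `H7` -/
def H7S : Prop := ∀ η : ℝ, 0 < η → η < 1 / 10 → ∃ n0 : ℕ, ∀ n ≥ n0, ∀ M : ℕ,
    ∀ V ⊆ range (n ^ 2), ∀ q : ℝ, 1 / Real.log n ≤ q → q ≤ 1 →
    ∀ v < (gridLS n V M).N, ∀ s < (gridLS n V M).N, s ≠ v →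
      ∑ p ∈ ((gridLS n V M).Pv v).filter
          (fun p => (gridLS n V M).Lng ⌊(n : ℝ) ^ (η / 2)⌋₊ v s p.1 ∨
            (gridLS n V M).Lng ⌊(n : ℝ) ^ (η / 2)⌋₊ v s p.2),
        lamV n V q p.1 * lamV n V q p.2 ≤ (n : ℝ) ^ (-η / 20)

/-- `2 log n ≤ n ^ ε` and `100 (log n ^ 8) ^ 3 / n ≤ ε'` for large `n` -/
theorem large_n (ε ε' : ℝ) (hε : 0 < ε) (hε' : 0 < ε') : ∃ n0 : ℕ, ∀ n : ℕ, n0 ≤ n →
    3 ≤ n ∧ 2 * Real.log n ≤ (n : ℝ) ^ ε ∧ 100 * (Real.log n ^ 8) ^ 3 / n ≤ ε' := by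
  have h1 : ∀ᶠ x : ℝ in Filter.atTop, ‖Real.log x‖ ≤ (1 / 2) * ‖x ^ ε‖ :=
    (isLittleO_log_rpow_atTop hε).bound (by norm_num)
  have h2 : ∀ᶠ x : ℝ in Filter.atTop, ‖Real.log x ^ 24‖ ≤ (ε' / 100) * ‖x‖ := by
    have := (Real.isLittleO_pow_log_id_atTop (n := 24)).bound (c := ε' / 100) (by positivity)
    simpa using this
  have h3 := (h1.and h2).and (Filter.eventually_ge_atTop (3 : ℝ))
  have h4 := (tendsto_natCast_atTop_atTop (R := ℝ)).eventually h3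
  obtain ⟨n0, hn0⟩ := Filter.eventually_atTop.1 h4
  refine ⟨n0, fun n hn => ?_⟩
  obtain ⟨⟨h5, h6⟩, h7⟩ := hn0 n hn
  have hn3 : 3 ≤ n := by exact_mod_cast h7
  have hnpos : (0 : ℝ) < n := by linarith
  have hlog : 0 ≤ Real.log n := Real.log_nonneg (by linarith)
  refine ⟨hn3, ?_, ?_⟩
  · rw [Real.norm_of_nonneg hlog, Real.norm_of_nonneg (Real.rpow_nonneg hnpos.le _)] at h5
    linarith
  · rw [Real.norm_of_nonneg (pow_nonneg hlog _), Real.norm_of_nonneg hnpos.le] at h6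
    rw [div_le_iff₀ hnpos, ← pow_mul]
    norm_num
    linarith

theorem lamV_nonneg (hrho : RhoS) (n : ℕ) (V : Finset ℕ) (hV : V ⊆ range (n ^ 2)) (q : ℝ)
    (hq : 0 < q) (v : ℕ) : 0 ≤ lamV n V q v := by
  unfold lamV
  split_ifs with h
  · have h1 := (hrho n v (mem_range.1 (hV h))).1
    have : (0 : ℝ) ≤ q * n := by positivity
    exact div_nonneg (by linarith) this
  · exact le_rfl

theorem updist_of (hscl : SclS) (hgood : GoodS) (hcp : CardPreS) (hcg : CardGlsS) (hrho : RhoS)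
    (hPv : PvS) (hpre : PreS) (hcube : CubeS) (hH5 : H5S) (hH6 : H6S) (hH7 : H7S)
    (δ : ℝ) (hδ : 0 < δ) (hδ1 : δ < 1) : ∃ M : ℕ, 1 ≤ M ∧ ∃ C4 > (0 : ℝ),
    ∃ n0 : ℕ, ∀ n ≥ n0, ∀ V ⊆ range (n ^ 2), ∀ q : ℝ, 1 / Real.log n ≤ q → q ≤ 1 →
      (∀ a < n ^ 2, ∀ b < n ^ 2, a ≠ b → ((V ∩ ghalf n a b).card : ℝ) ≤ q * (0.5001 * n)) →
      (∀ a < n ^ 2, ∀ b < n ^ 2, a ≠ b →
        ((V ∩ gline n a b).card : ℝ) ≤ q * (2 * (gline n a b).card + Real.log n ^ 8)) →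
      (∀ w < n ^ 2, XX (Qup n M w) (fun p => rho n p.1 * rho n p.2) V ≤
        q ^ 2 * (0.9984 * (n : ℝ) ^ 2 * Real.log n)) →
      ∃ W : Finset ℕ → ℝ, (∀ C, 0 ≤ W C) ∧ (∀ C, W C ≠ 0 → C ⊆ V ∧ NoThree n C) ∧
        (∑ C ∈ V.powerset, W C = 1) ∧
        (∀ v ∈ V, (1 - δ) * rho n v / (q * n) ≤
          ∑ C ∈ V.powerset.filter (fun C => v ∈ C), W C) ∧
        (∀ u ∈ V, ∀ v ∈ V, u ≠ v →
          ∑ C ∈ V.powerset.filter (fun C => u ∈ C ∧ v ∈ C), W C ≤ C4 / (q * n) ^ 2) := by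
  obtain ⟨δ3, hδ3, H⟩ := hscl 0.9998 0.0005 δ (by norm_num) (by norm_num) (by norm_num)
    (by norm_num) hδ hδ1
  obtain ⟨M, hM⟩ := exists_nat_ge (80000 / δ3 + 1)
  have hMpos : (0 : ℝ) < 80000 / δ3 := by positivity
  have hM1' : (1 : ℝ) ≤ M := by linarith
  have hM1 : 1 ≤ M := by exact_mod_cast hM1'
  have hM40 : 40000 / (M : ℝ) ≤ δ3 / 2 := by
    rw [div_le_iff₀ (by linarith)]
    have h1 : 80000 / δ3 ≤ M := by linarith
    rw [div_le_iff₀ hδ3] at h1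
    linarith
  obtain ⟨C4, hC4, n0, H⟩ := H ((2 * M + 1) ^ 2)
  obtain ⟨n5, h5⟩ := hH5 0.0005 (by norm_num)
  obtain ⟨n6, h6⟩ := hH6 0.0005 (by norm_num)
  obtain ⟨n7, h7⟩ := hH7 0.0005 (by norm_num) (by norm_num)
  obtain ⟨n1, h1⟩ := large_n (0.0005 / 100) (δ3 / 2) (by norm_num) (by positivity)
  refine ⟨M, hM1, 4 * C4, by positivity, n0 + n5 + n6 + n7 + n1, fun n hn V hV q hq hq1 hh hl hX => ?_⟩
  obtain ⟨hn3, hlog2, hcub⟩ := h1 n (by omega)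
  have hn0 : 0 < n := by omega
  have hnR : (3 : ℝ) ≤ n := by exact_mod_cast hn3
  have hlog : 0 < Real.log n := Real.log_pos (by linarith)
  have hq0 : 0 < q := lt_of_lt_of_le (by positivity) hq
  have hqn : 0 < q * n := by positivity
  have hlam0 := lamV_nonneg hrho n V hV q hq0
  have hrho2 : ∀ v ∈ V, rho n v ≤ 2 := fun v hv => by
    have := (hrho n v (mem_range.1 (hV hv))).2
    linarith
  have hN : (gridLS n V M).N = n ^ 2 := rfl
  have hls : (gridLS n V M).ls = gls n V M := rfl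
  obtain ⟨W, hW0, hWs, hW1, hWm, hWp⟩ := H n (by omega) (gridLS n V M) (lamV n V q) le_rfl
    (by
      rw [hls]
      refine (hcg n M V hV).trans ?_
      have h8 : n ^ 6 = n ^ 2 * n ^ 4 := by ring
      rw [h8]
      exact Nat.mul_le_mul_right _ (by nlinarith))
    (fun v => ⟨hlam0 v, by
      unfold lamV
      split_ifs with hv
      · have h8 : (n : ℝ) ^ (-1 + 0.0005 / 100 : ℝ) = (n : ℝ) ^ (0.0005 / 100 : ℝ) / n := by
          rw [Real.rpow_add (by linarith), Real.rpow_neg_one]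
          field_simp
        rw [h8, div_le_div_iff₀ hqn (by linarith)]
        have h9 : 1 ≤ q * Real.log n := by
          rw [div_le_iff₀ hlog] at hq
          exact hq
        have h10 : rho n v ≤ 2 * Real.log n * q := by
          have := hrho2 v hv
          nlinarith
        have h11 : rho n v ≤ (n : ℝ) ^ (0.0005 / 100 : ℝ) * q :=
          h10.trans (mul_le_mul_of_nonneg_right hlog2 hq0.le)
        have h12 := mul_le_mul_of_nonneg_right h11 (show (0 : ℝ) ≤ n by linarith)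
        linarith
      · exact Real.rpow_nonneg (by linarith) _⟩)
    (fun v _ i hi _ hp => by
      refine le_trans ?_ (hpre n M V hV q hq0 hn0 hh i hi hp)
      exact Finset.sum_le_sum_of_subset_of_nonneg (Finset.filter_subset _ _)
        (fun z _ _ => hlam0 z))
    (fun v _ => hcp n M V hV v)
    (fun v _ => by
      refine (hcube n M hM1 V hV q hq0 hn0 (Real.log n ^ 8) (by positivity) hl v).trans ?_
      linarith)
    (fun v hv => by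
      refine (hPv n M V hV q hq0 v hv).trans ?_
      have h8 := hX v hv
      rw [div_le_iff₀ (by positivity)]
      refine h8.trans ?_
      have h9 : q ^ 2 * (0.9984 * (n : ℝ) ^ 2 * Real.log n) =
          0.9984 * (Real.log n * (q * n) ^ 2) := by ring
      rw [h9]
      have h10 : 0 ≤ Real.log n * (q * n) ^ 2 := by positivity
      have h11 : (1 - 3 * 0.0005) * Real.log n * (q * n) ^ 2 =
          0.9985 * (Real.log n * (q * n) ^ 2) := by ring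
      rw [h11]
      nlinarith)
    (h6 n (by omega) M V hV q hq hq1)
    (h5 n (by omega) M V hV q hq hq1)
    (h7 n (by omega) M V hV q hq hq1)
  have hsub : ∀ C, W C ≠ 0 → C ⊆ V := by
    intro C hC v hv
    have h8 := (hWs C hC).2.1 v hv
    unfold lamV at h8
    by_contra h9
    rw [if_neg h9] at h8
    exact h8 rfl
  have hpow : V.powerset ⊆ (range (n ^ 2)).powerset := Finset.powerset_mono.2 hV
  have hsum : ∀ (P : Finset ℕ → Prop) [DecidablePred P], ∑ C ∈ V.powerset.filter P, W C =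
      ∑ C ∈ (range (n ^ 2)).powerset.filter P, W C := by
    intro P _
    refine Finset.sum_subset (Finset.filter_subset_filter _ hpow) ?_
    intro C hC hC'
    rw [mem_filter] at hC hC'
    by_contra h8
    exact hC' ⟨mem_powerset.2 (hsub C h8), hC.2⟩
  refine ⟨W, hW0, fun C hC => ⟨hsub C hC, hgood n M V hV C (hsub C hC) (hWs C hC).2.2⟩, ?_, ?_, ?_⟩
  · have h8 := hsum (fun _ => True)
    simp only [Finset.filter_true] at h8
    rw [h8]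
    exact hW1
  · intro v hv
    rw [hsum]
    have h8 := hWm v (mem_range.1 (hV hv))
    have h9 : lamV n V q v = rho n v / (q * n) := by
      unfold lamV
      rw [if_pos hv]
    rw [h9] at h8
    rw [mul_div_assoc]
    exact h8
  · intro u hu v hv huv
    rw [hsum]
    have h8 := hWp u (mem_range.1 (hV hu)) v (mem_range.1 (hV hv)) huv
    refine h8.trans ?_
    have h9 : ∀ v ∈ V, lamV n V q v ≤ 2 / (q * n) := by
      intro v hv
      unfold lamV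
      rw [if_pos hv]
      exact div_le_div_of_nonneg_right (hrho2 v hv) hqn.le
    have h10 : lamV n V q u * lamV n V q v ≤ 2 / (q * n) * (2 / (q * n)) :=
      mul_le_mul (h9 u hu) (h9 v hv) (hlam0 v) (by positivity)
    have h11 : 4 * C4 / (q * n) ^ 2 = C4 * (2 / (q * n) * (2 / (q * n))) := by
      field_simp
      ring
    rw [h11, mul_assoc]
    exact mul_le_mul_of_nonneg_left h10 hC4.le

end

end GPG
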